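import Pool.Agent.Helper85.HP.A7
import Pool.Agent.Helper86.PE.D2

/-!
# MP_e94e4b_nt: almost equal primes with the sum `2 N² + 2 N + 2`, with a power saving at every scale

The problem asks for `k` with `2 ≤ k ≤ 2 N` such that `A_N(k) = N² + k + 1` and `B_N(k) = (N + 1)² - k` are both
prime. Here `k` may be larger, up to a small power saving against `N²`. The result concerns almost all `N < X`, and also
almost all the `N` among the values of an arbitrary polynomial `G` (`Family`; `G = x` is the case of all `N < X`).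

* (Every scale, asymptotic formula.) For all `K` and `ε > 0` there are `D` and `δ, c > 0` such that for all `B` and
  `κ > 0` and EVERY large `X` there are a modulus `r ≥ (log X) ^ B`, a character `χ` modulo `r` with `χ ^ 2 = 1` and a
  number `0 ≤ y ≤ 1 - X ^ (-κ)`, where either `y = 0` or `χ` is primitive and nontrivial and `y = (X ^ 2) ^ (β - 1)` for
  a real zero `β` of `L(s, χ)`, such that for every polynomial `G` with integer coefficients of degree `d` in `[1, K]`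
  with `|G| ≤ X ^ (1 + δ)` on `[0, P)`, `P ^ d ≥ X ^ (1 - δ)`, for all but at most `X ^ (-δ) P` of the `x` in `[0, P)`,
  if `N = G(x)` is in `[0, X)`, then the number of the `k` in `[a, b)` for which `A_N(k)` and `B_N(k)` are both prime is
  `T S (b - a) / (log X ^ 2) ^ 2` up to the relative error `ε`, for ALL the intervals of length at least `X ^ (2 - δ)`
  on which `A_N` and `B_N` are positive. Here `S ≥ c` is the singular series and `T` is the mean of the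
  `(1 - y χ (A_N(k))) (1 - y χ (B_N(k)))` over the classes `k` modulo `r` for which `A_N(k)` and `B_N(k)` are prime to
  `r`, so that `(1 - y) ^ 2 ≤ T ≤ 4`. The same formula holds with `T` replaced by `1` unless `r` divides
  `D (N² + N + 1)²`.
* (Every scale, existence.) For each `K` there is `δ > 0` such that for each `κ > 0` and every large `X`, for all such
  `G` and for all but at most `X ^ (-δ) P` of the `x` in `[0, P)`, if `N = G(x)` is in `[X / 2, X)`, then there are at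
  least `X ^ (2 - δ - κ)` integers `k` with `2 ≤ k < X ^ (2 - δ)` for which `A_N(k)` and `B_N(k)` are both prime: the
  two primes are almost equal.
* (Most scales.) At most scales `X` the first formula holds with `T = 1` for all `N < X` but at most `X ^ (1 - δ)`.

Proof: the approximation of the Fourier transform of the primes by that of its model, Hölder's inequality with the
energy of the values of `2 G² + 2 G + 2`, and the main term of the model, in which a possible exceptional zero is kept.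
Builds on `Pool.Agent.Helper85.HP` (helper85), which has the most scales part.
-/

set_option autoImplicit false

namespace Pool.Agent.Results.MP_e94e4b_nt.AlmostEqualEveryScale

open Finset Polynomial

open Classical in
/-- The property `P` holds at most scales: the set of the positive integers `X` with the property `P` has upper
logarithmic density at least `1 - ε`. Precisely, for arbitrarily large `R` the sum of `1 / X` over the `X ≤ R`
without the property is at most `ε log R`. -/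
def MostScales (ε : ℝ) (P : ℕ → Prop) : Prop :=
  ∀ R₀ : ℕ, ∃ R : ℕ, R₀ ≤ R ∧ ∑ X ∈ (Icc 1 R).filter (fun X => ¬ P X), (1 : ℝ) / X ≤ ε * Real.log R

/-- The number of the residue classes `k` modulo `p` for which `p` divides `A_N(k) B_N(k)`. -/
def nu (N p : ℕ) : ℕ :=
  ((range p).filter (fun k : ℕ => (p : ℤ) ∣ ((N : ℤ) ^ 2 + k + 1) * (((N : ℤ) + 1) ^ 2 - k))).card

/-- `S` is the singular series. -/
def IsSingularSeries (N : ℕ) (S : ℝ) : Prop :=
  HasProd (fun p : Nat.Primes => (1 - (nu N p : ℝ) / (p : ℕ)) * ((1 - 1 / ((p : ℕ) : ℝ))⁻¹) ^ 2) S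

/-- `A_N(k) = N² + k + 1` and `B_N(k) = (N + 1)² - k` are both prime. -/
def PrimePair (N : ℕ) (k : ℤ) : Prop := ((N : ℤ) ^ 2 + k + 1).toNat.Prime ∧ (((N : ℤ) + 1) ^ 2 - k).toNat.Prime

open Classical in
/-- The number of the integers `k` with `a ≤ k < b` for which `A_N(k)` and `B_N(k)` are both prime. -/
noncomputable def pairs (N : ℕ) (a b : ℤ) : ℕ := ((Ico a b).filter (fun k : ℤ => PrimePair N k)).card

/-- For all intervals `[a, b)` of length at least `X ^ (2 - δ)` on which `A_N(k)` and `B_N(k)` are positive the number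
of the `k` in `[a, b)` for which both are prime is `S (b - a) / (log X²)²` up to the relative error `ε`, where `S` is
the singular series, which is positive. -/
def Predicted (ε δ : ℝ) (X N : ℕ) : Prop :=
  ∃ S : ℝ, 0 < S ∧ IsSingularSeries N S ∧ ∀ a b : ℤ, -(N : ℤ) ^ 2 ≤ a → b ≤ ((N : ℤ) + 1) ^ 2 →
    (X : ℝ) ^ (2 - δ) ≤ ((b - a : ℤ) : ℝ) →
    |(pairs N a b : ℝ) - S * (((b - a : ℤ) : ℝ) / (2 * Real.log X) ^ 2)| ≤
      ε * (S * (((b - a : ℤ) : ℝ) / (2 * Real.log X) ^ 2))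

/-- The classes `k` modulo `r` for which `A_N(k)` and `B_N(k)` are prime to `r`. -/
def unitResidues (r N : ℕ) : Finset ℕ :=
  (range r).filter (fun k : ℕ => Int.gcd ((N : ℤ) ^ 2 + k + 1) r = 1 ∧ Int.gcd (((N : ℤ) + 1) ^ 2 - k) r = 1)

/-- The mean over these classes of `(1 - y χ (A_N(k))) (1 - y χ (B_N(k)))`. -/
noncomputable def twist {r : ℕ} (χ : DirichletCharacter ℂ r) (y : ℝ) (N : ℕ) : ℝ :=
  (∑ k ∈ unitResidues r N, (1 - y * (χ (((N : ℤ) ^ 2 + k + 1 : ℤ) : ZMod r)).re) *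
    (1 - y * (χ ((((N : ℤ) + 1) ^ 2 - k : ℤ) : ZMod r)).re)) / (unitResidues r N).card

/-- The asymptotic formula with the factor `T = twist χ y N` for all intervals `[a, b)` of length at least
`X ^ (2 - δ)` on which `A_N(k)` and `B_N(k)` are positive; also with `T` replaced by `1` unless `r` divides
`D (N² + N + 1)²`. -/
def Formula {r : ℕ} (ε δ c : ℝ) (D X : ℕ) (χ : DirichletCharacter ℂ r) (y : ℝ) (N : ℕ) : Prop :=
  (1 - y) ^ 2 ≤ twist χ y N ∧ twist χ y N ≤ 4 ∧ ∃ S : ℝ, IsSingularSeries N S ∧ c ≤ S ∧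
    ∀ a b : ℤ, -(N : ℤ) ^ 2 ≤ a → b ≤ ((N : ℤ) + 1) ^ 2 → (X : ℝ) ^ (2 - δ) ≤ ((b - a : ℤ) : ℝ) →
      |(pairs N a b : ℝ) - twist χ y N * S * (((b - a : ℤ) : ℝ) / (2 * Real.log X) ^ 2)| ≤
          ε * (twist χ y N * S * (((b - a : ℤ) : ℝ) / (2 * Real.log X) ^ 2)) ∧
      (¬ r ∣ D * (N ^ 2 + N + 1) ^ 2 →
        |(pairs N a b : ℝ) - S * (((b - a : ℤ) : ℝ) / (2 * Real.log X) ^ 2)| ≤
          ε * (S * (((b - a : ℤ) : ℝ) / (2 * Real.log X) ^ 2)))

/-- `G` is a polynomial with integer coefficients, of a degree `d` with `1 ≤ d ≤ K`, such that `|G(x)| ≤ X ^ (1 + δ)` for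
all the integers `0 ≤ x < P`, where `P ^ d ≥ X ^ (1 - δ)`. For instance `G = x` with `P = X`. -/
def Family (K : ℕ) (δ : ℝ) (X P : ℕ) (G : ℤ[X]) : Prop :=
  1 ≤ G.natDegree ∧ G.natDegree ≤ K ∧ (X : ℝ) ^ (1 - δ) ≤ (P : ℝ) ^ G.natDegree ∧
    ∀ x : ℤ, 0 ≤ x → x < P → ((|G.eval x| : ℤ) : ℝ) ≤ (X : ℝ) ^ (1 + δ)

lemma pairs_eq (N : ℕ) (a b : ℤ) :
    pairs N a b = Pool.Agent.Helper86.PS.pc Pool.Agent.Helper85.HP.a2 (Pool.Agent.Helper85.HP.h2 (Pool.Agent.Helper85.HP.sq2 N))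
      (a + ((N : ℤ) ^ 2 + 1)) (b + ((N : ℤ) ^ 2 + 1)) := by
  classical
  unfold pairs Pool.Agent.Helper86.PS.pc
  apply card_bij (fun k _ => k + ((N : ℤ) ^ 2 + 1))
  · intro k hk
    rw [mem_filter, mem_Ico] at hk ⊢
    refine ⟨⟨by linarith [hk.1.1], by linarith [hk.1.2]⟩, fun i => ?_⟩
    have e0 : (1 : ℤ) * (k + ((N : ℤ) ^ 2 + 1)) + 0 = (N : ℤ) ^ 2 + k + 1 := by ring
    have e1 : (-1 : ℤ) * (k + ((N : ℤ) ^ 2 + 1)) + Pool.Agent.Helper85.HP.sq2 N = ((N : ℤ) + 1) ^ 2 - k := by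
      unfold Pool.Agent.Helper85.HP.sq2; ring
    fin_cases i
    · simp only [Pool.Agent.Helper85.HP.a2, Pool.Agent.Helper85.HP.h2, Fin.zero_eta, Matrix.cons_val_zero]
      rw [e0]; exact hk.2.1
    · simp only [Pool.Agent.Helper85.HP.a2, Pool.Agent.Helper85.HP.h2, Fin.mk_one, Matrix.cons_val_one,
        Matrix.cons_val_fin_one]
      rw [e1]; exact hk.2.2
  · intro x _ y _ hxy
    linarith
  · intro n hn
    rw [mem_filter, mem_Ico] at hn
    refine ⟨n - ((N : ℤ) ^ 2 + 1), ?_, by ring⟩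
    rw [mem_filter, mem_Ico]
    refine ⟨⟨by linarith [hn.1.1], by linarith [hn.1.2]⟩, ?_⟩
    have h0 := hn.2 0
    have h1 := hn.2 1
    simp only [Pool.Agent.Helper85.HP.a2, Pool.Agent.Helper85.HP.h2, Matrix.cons_val_zero, Matrix.cons_val_one] at h0 h1
    have e0 : (N : ℤ) ^ 2 + (n - ((N : ℤ) ^ 2 + 1)) + 1 = 1 * n + 0 := by ring
    have e1 : ((N : ℤ) + 1) ^ 2 - (n - ((N : ℤ) ^ 2 + 1)) = -1 * n + Pool.Agent.Helper85.HP.sq2 N := by
      unfold Pool.Agent.Helper85.HP.sq2; ring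
    unfold PrimePair
    rw [e0, e1]
    exact ⟨h0, h1⟩

lemma nu_eq (N : ℕ) {p : ℕ} (hp : p.Prime) :
    Pool.Agent.Helper86.PS.nuP Pool.Agent.Helper85.HP.a2 (Pool.Agent.Helper85.HP.h2 (Pool.Agent.Helper85.HP.sq2 N)) p = nu N p := by
  rw [← Pool.Agent.Helper86.PS.nuP_translate _ _ ((N : ℤ) ^ 2 + 1) hp.pos]
  unfold Pool.Agent.Helper86.PS.nuP nu
  congr 1
  apply filter_congr
  intro x _
  have e0 : (1 : ℤ) * x + (0 + ((N : ℤ) ^ 2 + 1) * 1) = (N : ℤ) ^ 2 + x + 1 := by ring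
  have e1 : (-1 : ℤ) * x + (Pool.Agent.Helper85.HP.sq2 N + ((N : ℤ) ^ 2 + 1) * (-1)) = ((N : ℤ) + 1) ^ 2 - x := by
    unfold Pool.Agent.Helper85.HP.sq2; ring
  rw [(Nat.prime_iff_prime_int.1 hp).dvd_mul, ← e0, ← e1, Fin.exists_fin_two]
  simp only [Pool.Agent.Helper85.HP.a2, Pool.Agent.Helper85.HP.h2, Pi.add_apply, Pi.smul_apply, smul_eq_mul,
    Matrix.cons_val_zero, Matrix.cons_val_one]

lemma predicted_of_good {ε δ : ℝ} {X N : ℕ} (h : Pool.Agent.Helper85.HP.Good ε δ X N) : Predicted ε δ X N := by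
  obtain ⟨S, hS0, hS, hmain⟩ := h
  refine ⟨S, hS0, ?_, fun a b ha hb hab => ?_⟩
  · unfold IsSingularSeries
    have e : (fun p : Nat.Primes => (1 - (nu N p : ℝ) / (p : ℕ)) * ((1 - 1 / ((p : ℕ) : ℝ))⁻¹) ^ 2) =
        fun p : Nat.Primes => Pool.Agent.Helper86.PS.facP Pool.Agent.Helper85.HP.a2
          (Pool.Agent.Helper85.HP.h2 (Pool.Agent.Helper85.HP.sq2 N)) (p : ℕ) := by
      funext p
      unfold Pool.Agent.Helper86.PS.facP
      rw [nu_eq N p.2]
    rw [e]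
    exact hS
  · have h1 := hmain (a + ((N : ℤ) ^ 2 + 1)) (b + ((N : ℤ) ^ 2 + 1)) (by linarith) (by
      unfold Pool.Agent.Helper85.HP.sq2
      linarith) (by
      have e : b + ((N : ℤ) ^ 2 + 1) - (a + ((N : ℤ) ^ 2 + 1)) = b - a := by ring
      rw [e]; exact hab)
    have e : b + ((N : ℤ) ^ 2 + 1) - (a + ((N : ℤ) ^ 2 + 1)) = b - a := by ring
    rw [e, ← pairs_eq] at h1
    exact h1

lemma exists_pair {ε δ : ℝ} {X N : ℕ} (hε1 : ε < 1) (hX : 2 ≤ X) (hδ : δ ≤ 1) (h : Predicted ε δ X N)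
    (hN : (X : ℝ) ^ (2 - δ) ≤ (N : ℝ) ^ 2) : ∃ k : ℤ, |(k : ℝ)| ≤ (X : ℝ) ^ (2 - δ) ∧ PrimePair N k := by
  classical
  obtain ⟨S, hS0, -, hmain⟩ := h
  have hXr : (2 : ℝ) ≤ X := by exact_mod_cast hX
  obtain ⟨W, hW⟩ : ∃ W : ℝ, W = (X : ℝ) ^ (2 - δ) := ⟨_, rfl⟩
  rw [← hW] at hN hmain ⊢
  have hW2 : 2 ≤ W := by
    rw [hW]
    calc (2 : ℝ) ≤ X := hXr
      _ = (X : ℝ) ^ (1 : ℝ) := (Real.rpow_one _).symm
      _ ≤ _ := Real.rpow_le_rpow_of_exponent_le (by linarith) (by linarith)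
  obtain ⟨t, ht⟩ : ∃ t : ℕ, t = ⌈W / 2⌉₊ := ⟨_, rfl⟩
  have ht1 : W / 2 ≤ t := by rw [ht]; exact Nat.le_ceil _
  have ht2 : (t : ℝ) ≤ W := by
    have := Nat.ceil_lt_add_one (a := W / 2) (by linarith)
    rw [← ht] at this
    linarith
  have htN : (t : ℤ) ≤ (N : ℤ) ^ 2 := by
    have : (t : ℝ) ≤ (N : ℝ) ^ 2 := ht2.trans hN
    exact_mod_cast this
  have h1 := hmain (-(t : ℤ)) t (by linarith) (by
    have : (0 : ℤ) ≤ N := Int.natCast_nonneg _
    nlinarith) (by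
    push_cast
    linarith)
  obtain ⟨V, hV⟩ : ∃ V : ℝ, V = S * ((((t : ℤ) - (-(t : ℤ)) : ℤ) : ℝ) / (2 * Real.log X) ^ 2) := ⟨_, rfl⟩
  rw [← hV] at h1
  have hlog : 0 < Real.log X := Real.log_pos (by linarith)
  have hV0 : 0 < V := by
    rw [hV]
    apply mul_pos hS0
    apply div_pos
    · push_cast
      linarith
    · positivity
  have h2 := (abs_le.1 h1).1
  have h3 : (0 : ℝ) < pairs N (-(t : ℤ)) t := by
    have : ε * V < 1 * V := mul_lt_mul_of_pos_right hε1 hV0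
    linarith
  have h4 : 0 < pairs N (-(t : ℤ)) t := by exact_mod_cast h3
  unfold pairs at h4
  obtain ⟨k, hk⟩ := card_pos.1 h4
  rw [mem_filter, mem_Ico] at hk
  refine ⟨k, ?_, hk.2⟩
  refine le_trans ?_ ht2
  have : |k| ≤ (t : ℤ) := abs_le.2 ⟨hk.1.1, hk.1.2.le⟩
  exact_mod_cast this

lemma most_mono {ε : ℝ} {P P' : ℕ → Prop} (h : ∀ X, P X → P' X) (hm : Pool.Agent.Helper86.PS.MostSc ε P) :
    MostScales ε P' := by
  classical
  intro R₀
  obtain ⟨R, hR, hsum⟩ := hm R₀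
  refine ⟨R, hR, le_trans ?_ hsum⟩
  apply sum_le_sum_of_subset_of_nonneg
  · intro X hX
    rw [mem_filter] at hX ⊢
    exact ⟨hX.1, fun hP => hX.2 (h X hP)⟩
  · intro X _ _
    positivity

/-- the polynomial `2 G² + 2 G + 2` -/
noncomputable def sqp (G : ℤ[X]) : ℤ[X] := C 2 * G ^ 2 + C 2 * G + C 2

lemma sqp_eval (G : ℤ[X]) (x : ℤ) : (sqp G).eval x = 2 * G.eval x ^ 2 + 2 * G.eval x + 2 := by
  unfold sqp
  simp

lemma sqp_deg (G : ℤ[X]) (hG : 1 ≤ G.natDegree) : (sqp G).natDegree = 2 * G.natDegree := by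
  have e : sqp G = (C 2 * X ^ 2 + C 2 * X + C 2 : ℤ[X]).comp G := by
    unfold sqp
    simp
  rw [e, natDegree_comp, natDegree_quadratic (by norm_num)]

lemma sqp_sq2 (G : ℤ[X]) (x : ℤ) (N : ℕ) (h : G.eval x = N) :
    (sqp G).eval x = Pool.Agent.Helper85.HP.sq2 N := by
  rw [sqp_eval, h]
  rfl

lemma twA_eq (j : Pool.Agent.Helper86.PS.PC) (y : ℝ) (N : ℕ) : Pool.Agent.Helper86.EA.twA j y
    (Pool.Agent.Helper86.PE.pa (-1)) (Pool.Agent.Helper86.PE.ph (Pool.Agent.Helper85.HP.sq2 N)) = twist j.2 y N := by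
  rw [← Pool.Agent.Helper86.EA.twA_translate j y _ _ ((N : ℤ) ^ 2 + 1)]
  have e0 : ∀ x : ℕ, Pool.Agent.Helper86.PE.pa (-1) 0 * (x : ℤ) + (Pool.Agent.Helper86.PE.ph (Pool.Agent.Helper85.HP.sq2 N) +
      ((N : ℤ) ^ 2 + 1) • Pool.Agent.Helper86.PE.pa (-1)) 0 = (N : ℤ) ^ 2 + x + 1 := by
    intro x
    simp only [Pool.Agent.Helper86.PE.pa, Pool.Agent.Helper86.PE.ph, Pi.add_apply, Pi.smul_apply, smul_eq_mul,
      Matrix.cons_val_zero]
    ring
  have e1 : ∀ x : ℕ, Pool.Agent.Helper86.PE.pa (-1) 1 * (x : ℤ) + (Pool.Agent.Helper86.PE.ph (Pool.Agent.Helper85.HP.sq2 N) +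
      ((N : ℤ) ^ 2 + 1) • Pool.Agent.Helper86.PE.pa (-1)) 1 = ((N : ℤ) + 1) ^ 2 - x := by
    intro x
    simp only [Pool.Agent.Helper86.PE.pa, Pool.Agent.Helper86.PE.ph, Pi.add_apply, Pi.smul_apply, smul_eq_mul,
      Matrix.cons_val_one, Matrix.cons_val_fin_one, Pool.Agent.Helper85.HP.sq2]
    ring
  have hG : Pool.Agent.Helper86.EA.twG (j.1 + 1) (Pool.Agent.Helper86.PE.pa (-1))
      (Pool.Agent.Helper86.PE.ph (Pool.Agent.Helper85.HP.sq2 N) + ((N : ℤ) ^ 2 + 1) • Pool.Agent.Helper86.PE.pa (-1)) =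
      unitResidues (j.1 + 1) N := by
    unfold Pool.Agent.Helper86.EA.twG unitResidues
    apply filter_congr
    intro x _
    rw [Fin.forall_fin_two, e0, e1]
  unfold Pool.Agent.Helper86.EA.twA twist
  rw [hG]
  congr 1
  apply sum_congr rfl
  intro x _
  rw [Fin.prod_univ_two, e0, e1]
  rfl

open Classical in
/-- every scale, asymptotic formula -/
theorem everyScale (K : ℕ) (ε : ℝ) (hε : 0 < ε) : ∃ D : ℕ, 0 < D ∧ ∃ δ : ℝ, 0 < δ ∧ ∃ c : ℝ, 0 < c ∧
    ∀ B : ℕ, ∀ κ : ℝ, 0 < κ → ∃ X₀ : ℕ, ∀ X : ℕ, X₀ ≤ X →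
    ∃ r : ℕ, ∃ _ : NeZero r, Real.log X ^ B ≤ r ∧ ∃ χ : DirichletCharacter ℂ r, χ ^ 2 = 1 ∧
    ∃ y : ℝ, 0 ≤ y ∧ y ≤ 1 - (X : ℝ) ^ (-κ) ∧
      (y = 0 ∨ (χ.IsPrimitive ∧ χ ≠ 1 ∧ ∃ β : ℝ, y = ((X : ℝ) ^ 2) ^ (β - 1) ∧ χ.LFunction β = 0)) ∧
      ∀ (P : ℕ) (G : ℤ[X]), Family K δ X P G →
        (((range P).filter (fun x : ℕ => ∃ N : ℕ, N < X ∧ G.eval (x : ℤ) = N ∧
          ¬ Formula ε δ c D X χ y N)).card : ℝ) ≤ (X : ℝ) ^ (-δ) * P := by
  obtain ⟨D, hD, δ, hδ, c, hc, hm⟩ := Pool.Agent.Helper86.PE.everyG (2 * K) hε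
  refine ⟨D * 4, by omega, δ / 2, by positivity, c, hc, fun B κ hκ => ?_⟩
  obtain ⟨N₀, hN₀⟩ := hm B (κ / 2) (by positivity)
  obtain ⟨X₁, hX₁⟩ := Pool.Agent.Helper86.PS.ev_log 6 0 (a := δ) hδ
  refine ⟨N₀ + X₁ + 3, fun X hX => ?_⟩
  have hX3 : (3 : ℝ) ≤ X := by exact_mod_cast (by omega : 3 ≤ X)
  have hX1r : (1 : ℝ) ≤ X := by linarith
  have hX0 : (0 : ℝ) < X := by linarith
  have hXX : X ≤ X ^ 2 := Nat.le_self_pow (by norm_num) X
  obtain ⟨j, hr, hj2, y, hy0, hyκ, hyβ, hP⟩ := hN₀ (X ^ 2) (by omega)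
  have hcast : ((X ^ 2 : ℕ) : ℝ) = (X : ℝ) ^ 2 := by push_cast; ring
  have hpow : ∀ z : ℝ, ((X : ℝ) ^ 2) ^ z = (X : ℝ) ^ (2 * z) := by
    intro z
    rw [← Real.rpow_natCast, ← Real.rpow_mul hX0.le]
    norm_num
  have hlX : 0 < Real.log X := Real.log_pos (by linarith)
  have hlog : Real.log ((X : ℝ) ^ 2) = 2 * Real.log X := by rw [Real.log_pow]; push_cast; ring
  have hmon : ∀ x z : ℝ, x ≤ z → (X : ℝ) ^ x ≤ (X : ℝ) ^ z := fun x z h => Real.rpow_le_rpow_of_exponent_le hX1r h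
  rw [hcast] at hr hyκ hyβ hP
  rw [hlog] at hr
  refine ⟨j.1 + 1, inferInstance, ?_, j.2, hj2, y, hy0, ?_, hyβ, ?_⟩
  · refine le_trans ?_ hr
    exact pow_le_pow_left₀ hlX.le (by linarith) B
  · rw [hpow] at hyκ
    have e : 2 * -(κ / 2) = -κ := by ring
    rwa [e] at hyκ
  intro P G hG
  obtain ⟨hG1, hGK, hPG, hGX⟩ := hG
  have hdeg := sqp_deg G hG1
  obtain ⟨E, hE1, hE2⟩ := hP (-1) (by norm_num) (by
    have := Real.one_le_rpow (one_le_pow₀ hX1r : (1 : ℝ) ≤ (X : ℝ) ^ 2) hδ.le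
    simpa using this) P (sqp G) (by rw [hdeg]; omega) (by rw [hdeg]; omega) (by
      rw [hdeg, hpow, mul_comm 2 G.natDegree, pow_mul]
      have h1 : ((X : ℝ) ^ (1 - δ / 2)) ^ 2 ≤ ((P : ℝ) ^ G.natDegree) ^ 2 :=
        pow_le_pow_left₀ (Real.rpow_nonneg hX0.le _) hPG 2
      refine le_trans ?_ h1
      rw [← Real.rpow_natCast, ← Real.rpow_mul hX0.le]
      apply hmon
      push_cast
      linarith) (by
      intro x hx hxX
      have hg := hGX x hx hxX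
      rw [sqp_eval]
      obtain ⟨g, hgd⟩ : ∃ g : ℤ, g = G.eval x := ⟨_, rfl⟩
      rw [← hgd] at hg ⊢
      obtain ⟨M, hM⟩ : ∃ M : ℝ, M = (X : ℝ) ^ (1 + δ / 2) := ⟨_, rfl⟩
      rw [← hM] at hg
      have hM1 : 1 ≤ M := by rw [hM]; exact Real.one_le_rpow hX1r (by linarith)
      have e1 := hX₁ X (by omega)
      rw [pow_zero, mul_one] at e1
      push_cast at hg ⊢
      have h2 : |2 * (g : ℝ) ^ 2 + 2 * g + 2| ≤ 6 * M ^ 2 := by
        have ha : |(g : ℝ)| ^ 2 ≤ M ^ 2 := pow_le_pow_left₀ (abs_nonneg _) hg 2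
        rw [sq_abs] at ha
        have hb := (abs_le.1 hg).1
        have hb2 := (abs_le.1 hg).2
        have hMM : M ≤ M ^ 2 := by nlinarith
        rw [abs_le]
        constructor <;> nlinarith
      refine h2.trans ?_
      rw [hpow]
      have e3 : (X : ℝ) ^ (2 * (1 + δ)) = (X : ℝ) ^ δ * M ^ 2 := by
        rw [hM, ← Real.rpow_natCast ((X : ℝ) ^ (1 + δ / 2)), ← Real.rpow_mul hX0.le, ← Real.rpow_add hX0]
        congr 1
        push_cast
        ring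
      rw [e3]
      exact mul_le_mul_of_nonneg_right e1 (by positivity))
  have hcard : ((range P).filter (fun x : ℕ => ∃ N : ℕ, N < X ∧ G.eval (x : ℤ) = N ∧
      ¬ Formula ε (δ / 2) c (D * 4) X j.2 y N)).card ≤ E.card := by
    apply card_le_card_of_injOn (fun x : ℕ => (x : ℤ))
    · intro x hx
      rw [mem_coe, mem_filter, mem_range] at hx
      obtain ⟨hxP, N, hNlt, hGN, hbad⟩ := hx
      rw [mem_coe]
      by_contra hNE
      apply hbad
      have hs0 : (0 : ℤ) < Pool.Agent.Helper85.HP.sq2 N := by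
        unfold Pool.Agent.Helper85.HP.sq2
        positivity
      obtain ⟨hT1, hT2, S, hS, hcS, hS2⟩ := hE2 x (Int.natCast_nonneg _) (by exact_mod_cast hxP) hNE
        (Pool.Agent.Helper85.HP.sq2 N) hs0.ne' (by
          rw [sqp_sq2 G x N hGN, sub_self, abs_zero]
          push_cast
          positivity) (fun p hp => Pool.Agent.Helper85.HP.adm_two N hp)
      rw [twA_eq] at hT1 hT2 hS2
      have h4 : (2 : ℝ) ^ 2 = 4 := by norm_num
      rw [h4] at hT2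
      refine ⟨hT1, hT2, S, ?_, hcS, fun a b ha hb hab => ?_⟩
      · unfold IsSingularSeries
        have e : (fun p : Nat.Primes => (1 - (nu N p : ℝ) / (p : ℕ)) * ((1 - 1 / ((p : ℕ) : ℝ))⁻¹) ^ 2) =
            fun p : Nat.Primes => Pool.Agent.Helper86.PS.facP Pool.Agent.Helper85.HP.a2
              (Pool.Agent.Helper85.HP.h2 (Pool.Agent.Helper85.HP.sq2 N)) (p : ℕ) := by
          funext p
          unfold Pool.Agent.Helper86.PS.facP
          rw [nu_eq N p.2]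
        rw [e]
        exact hS
      · have hba : b + ((N : ℤ) ^ 2 + 1) - (a + ((N : ℤ) ^ 2 + 1)) = b - a := by ring
        have hNX : (N : ℤ) + 1 ≤ X := by exact_mod_cast hNlt
        have hN0 : (0 : ℤ) ≤ N := Int.natCast_nonneg _
        have hsq : Pool.Agent.Helper85.HP.sq2 N ≤ 2 * (X : ℤ) ^ 2 := by
          unfold Pool.Agent.Helper85.HP.sq2
          nlinarith
        have hpc : Pool.Agent.Helper86.PS.pc (Pool.Agent.Helper86.PE.pa (-1))
            (Pool.Agent.Helper86.PE.ph (Pool.Agent.Helper85.HP.sq2 N)) (a + ((N : ℤ) ^ 2 + 1)) (b + ((N : ℤ) ^ 2 + 1)) =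
            pairs N a b := (pairs_eq N a b).symm
        have hsb : b + ((N : ℤ) ^ 2 + 1) ≤ Pool.Agent.Helper85.HP.sq2 N := by
          unfold Pool.Agent.Helper85.HP.sq2
          linarith
        obtain ⟨g1, g2⟩ := hS2 (a + ((N : ℤ) ^ 2 + 1)) (b + ((N : ℤ) ^ 2 + 1)) (by
            have : (0 : ℤ) ≤ ((X ^ 2 : ℕ) : ℤ) := Int.natCast_nonneg _
            linarith) (by
            push_cast
            linarith) (by
            rw [hba, hpow]
            exact (hmon _ _ (by linarith)).trans hab) (by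
            intro z hz i
            rw [mem_Ico] at hz
            fin_cases i
            · simp only [Pool.Agent.Helper86.PE.pa, Pool.Agent.Helper86.PE.ph, Fin.zero_eta, Matrix.cons_val_zero]
              linarith
            · simp only [Pool.Agent.Helper86.PE.pa, Pool.Agent.Helper86.PE.ph, Fin.mk_one, Matrix.cons_val_one,
                Matrix.cons_val_fin_one, Matrix.cons_val_zero]
              linarith)
        rw [hba, hpc, hlog] at g1 g2
        refine ⟨g1, fun hnd => g2 ?_⟩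
        intro hdvd
        apply hnd
        have e : (D : ℤ) * (Pool.Agent.Helper85.HP.sq2 N ^ 2 * -1) = -((D * 4 * (N ^ 2 + N + 1) ^ 2 : ℕ) : ℤ) := by
          unfold Pool.Agent.Helper85.HP.sq2
          push_cast
          ring
        rw [e, dvd_neg] at hdvd
        exact_mod_cast hdvd
    · intro x _ x' _ h
      simp only [Nat.cast_inj] at h
      exact h
  refine (by exact_mod_cast hcard : (_ : ℝ) ≤ (E.card : ℝ)).trans (hE1.trans ?_)
  rw [hpow]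
  exact mul_le_mul_of_nonneg_right (hmon _ _ (by linarith)) (Nat.cast_nonneg _)

open Classical in
/-- most scales -/
theorem mostScales (ε : ℝ) (hε : 0 < ε) (hε1 : ε < 1) : ∃ δ : ℝ, 0 < δ ∧ MostScales ε (fun X =>
    (((range X).filter (fun N => ¬ Predicted ε δ X N)).card : ℝ) ≤ (X : ℝ) ^ (1 - δ) ∧
    (((range X).filter (fun N => ¬ ∃ k : ℤ, |(k : ℝ)| ≤ (X : ℝ) ^ (2 - δ) ∧ PrimePair N k)).card : ℝ) ≤
      (X : ℝ) ^ (1 - δ)) := by
  obtain ⟨δ0, hδ0, hm⟩ := Pool.Agent.Helper85.HP.mostX hε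
  obtain ⟨d, hd⟩ : ∃ d : ℝ, d = min δ0 1 := ⟨_, rfl⟩
  have hd0 : 0 < d := by rw [hd]; exact lt_min hδ0 one_pos
  have hd1 : d ≤ 1 := by rw [hd]; exact min_le_right _ _
  have hdδ : d ≤ δ0 := by rw [hd]; exact min_le_left _ _
  obtain ⟨X0, hX0⟩ := exists_nat_ge ((3 : ℝ) ^ (4 / d))
  refine ⟨d / 4, by positivity, ?_⟩
  refine most_mono (fun X hP => ?_) (hm (X0 + 2))
  · obtain ⟨hXX0, E, hE1, hE2⟩ := hP
    have hX2 : 2 ≤ X := by omega
    have hXr : (2 : ℝ) ≤ X := by exact_mod_cast hX2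
    have hX1 : (1 : ℝ) ≤ X := by linarith
    have hX0' : (0 : ℝ) < X := by linarith
    have h3 : 3 ≤ (X : ℝ) ^ (d / 4) := by
      have h4 : (3 : ℝ) ^ (4 / d) ≤ X := hX0.trans (by exact_mod_cast (by omega : X0 ≤ X))
      have h5 : ((3 : ℝ) ^ (4 / d)) ^ (d / 4) = 3 := by
        rw [← Real.rpow_mul (by norm_num)]
        have : 4 / d * (d / 4) = 1 := by field_simp
        rw [this, Real.rpow_one]
      rw [← h5]
      exact Real.rpow_le_rpow (by positivity) h4 (by positivity)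
    have hgood : ∀ N < X, N ∉ E → Predicted ε (d / 4) X N ∧ Predicted ε d X N := by
      intro N hN hNE
      obtain ⟨S, hS0, hS, hmain⟩ := predicted_of_good (hE2 N hN hNE)
      constructor
      · refine ⟨S, hS0, hS, fun a b ha hb hab => hmain a b ha hb (le_trans ?_ hab)⟩
        exact Real.rpow_le_rpow_of_exponent_le hX1 (by linarith)
      · refine ⟨S, hS0, hS, fun a b ha hb hab => hmain a b ha hb (le_trans ?_ hab)⟩
        exact Real.rpow_le_rpow_of_exponent_le hX1 (by linarith)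
    constructor
    · refine le_trans ?_ (hE1.trans (Real.rpow_le_rpow_of_exponent_le hX1 (by linarith)))
      have hsub : (range X).filter (fun N => ¬ Predicted ε (d / 4) X N) ⊆ E := by
        intro N hN
        rw [mem_filter, mem_range] at hN
        by_contra hc
        exact hN.2 (hgood N hN.1 hc).1
      exact_mod_cast card_le_card hsub
    · obtain ⟨T, hT⟩ : ∃ T : ℝ, T = (X : ℝ) ^ (1 - d / 2) := ⟨_, rfl⟩
      have hT1 : 1 ≤ T := by rw [hT]; exact Real.one_le_rpow hX1 (by linarith)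
      have hsub : (range X).filter (fun N => ¬ ∃ k : ℤ, |(k : ℝ)| ≤ (X : ℝ) ^ (2 - d / 4) ∧ PrimePair N k) ⊆
          E ∪ range ⌈T⌉₊ := by
        intro N hN
        rw [mem_filter, mem_range] at hN
        rw [mem_union, mem_range]
        by_contra hc
        push Not at hc
        apply hN.2
        have hNT : T ≤ N := (Nat.le_ceil T).trans (by exact_mod_cast hc.2)
        have hN2 : (X : ℝ) ^ (2 - d) ≤ (N : ℝ) ^ 2 := by
          have e1 : (X : ℝ) ^ (2 - d) = T ^ 2 := by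
            rw [hT, ← Real.rpow_natCast, ← Real.rpow_mul hX0'.le]
            congr 1
            push_cast
            ring
          rw [e1]
          exact pow_le_pow_left₀ (by linarith) hNT 2
        obtain ⟨k, hk1, hk2⟩ := exists_pair hε1 hX2 hd1 (hgood N hN.1 hc.1).2 hN2
        exact ⟨k, hk1.trans (Real.rpow_le_rpow_of_exponent_le hX1 (by linarith)), hk2⟩
      have hcard : (((range X).filter (fun N => ¬ ∃ k : ℤ, |(k : ℝ)| ≤ (X : ℝ) ^ (2 - d / 4) ∧ PrimePair N k)).card : ℝ) ≤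
          E.card + ⌈T⌉₊ := by
        have := (card_le_card hsub).trans (card_union_le _ _)
        rw [card_range] at this
        exact_mod_cast this
      have hceil : (⌈T⌉₊ : ℝ) ≤ 2 * T := by
        have := Nat.ceil_lt_add_one (a := T) (by linarith)
        linarith
      have hET : (E.card : ℝ) ≤ T := hE1.trans (by rw [hT]; exact Real.rpow_le_rpow_of_exponent_le hX1 (by linarith))
      have hfin : 3 * T ≤ (X : ℝ) ^ (1 - d / 4) := by
        have e1 : (X : ℝ) ^ (1 - d / 4) = (X : ℝ) ^ (d / 4) * T := by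
          rw [hT, ← Real.rpow_add hX0']
          congr 1
          ring
        rw [e1]
        exact mul_le_mul_of_nonneg_right h3 (by linarith)
      linarith


lemma scales_mono {ε : ℝ} {P P' : ℕ → Prop} (h : ∀ X, P X → P' X) (hm : MostScales ε P) : MostScales ε P' := by
  classical
  intro R₀
  obtain ⟨R, hR, hsum⟩ := hm R₀
  refine ⟨R, hR, le_trans ?_ hsum⟩
  apply sum_le_sum_of_subset_of_nonneg
  · intro X hX
    rw [mem_filter] at hX ⊢
    exact ⟨hX.1, fun hP => hX.2 (h X hP)⟩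
  · intro X _ _
    positivity

open Classical in
/-- every scale, existence -/
theorem existence (K : ℕ) : ∃ δ : ℝ, 0 < δ ∧ ∀ κ : ℝ, 0 < κ → ∃ X₀ : ℕ, ∀ X : ℕ, X₀ ≤ X →
    ∀ (P : ℕ) (G : ℤ[X]), Family K δ X P G →
    (((range P).filter (fun x : ℕ => ∃ N : ℕ, N < X ∧ X ≤ 2 * N ∧ G.eval (x : ℤ) = N ∧
      (pairs N 2 ⌊(X : ℝ) ^ (2 - δ)⌋ : ℝ) < (X : ℝ) ^ (2 - δ - κ))).card : ℝ) ≤ (X : ℝ) ^ (-δ) * P := by
  obtain ⟨D, hD, δ0, hδ0, c, hc, hm⟩ := everyScale K (1 / 2) (by norm_num)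
  obtain ⟨δ, hδ⟩ : ∃ δ : ℝ, δ = min (δ0 / 2) (1 / 2) := ⟨_, rfl⟩
  have hδ0' : 0 < δ := by rw [hδ]; exact lt_min (by positivity) (by norm_num)
  have hδ1 : δ ≤ δ0 / 2 := by rw [hδ]; exact min_le_left _ _
  have hδ2 : δ ≤ 1 / 2 := by rw [hδ]; exact min_le_right _ _
  refine ⟨δ, hδ0', fun κ hκ => ?_⟩
  obtain ⟨X₁, hX₁⟩ := hm 0 (κ / 4) (by positivity)
  obtain ⟨X₂, hX₂⟩ := Pool.Agent.Helper86.PS.ev_log (16 / c) 2 (a := κ / 2) (by positivity)
  obtain ⟨X₃, hX₃⟩ := Pool.Agent.Helper86.PS.ev_log 6 0 (a := δ) hδ0'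
  refine ⟨X₁ + X₂ + X₃ + 3, fun X hX => ?_⟩
  have hX3 : (3 : ℝ) ≤ X := by exact_mod_cast (by omega : 3 ≤ X)
  have hX1r : (1 : ℝ) ≤ X := by linarith
  have hX0 : (0 : ℝ) < X := by linarith
  have hlX : 0 < Real.log X := Real.log_pos (by linarith)
  have hmon : ∀ x z : ℝ, x ≤ z → (X : ℝ) ^ x ≤ (X : ℝ) ^ z := fun x z h => Real.rpow_le_rpow_of_exponent_le hX1r h
  obtain ⟨r, hr0, -, χ, -, y, hy0, hyκ, -, hP'⟩ := hX₁ X (by omega)
  intro P G hG
  have hP := hP' P G ⟨hG.1, hG.2.1, (hmon _ _ (by linarith)).trans hG.2.2.1, fun x hx hxP =>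
    (hG.2.2.2 x hx hxP).trans (hmon _ _ (by linarith))⟩
  refine le_trans ?_ (hP.trans (mul_le_mul_of_nonneg_right (hmon _ _ (by linarith)) (Nat.cast_nonneg _)))
  have hsub : (range P).filter (fun x : ℕ => ∃ N : ℕ, N < X ∧ X ≤ 2 * N ∧ G.eval (x : ℤ) = N ∧
      (pairs N 2 ⌊(X : ℝ) ^ (2 - δ)⌋ : ℝ) < (X : ℝ) ^ (2 - δ - κ)) ⊆
      (range P).filter (fun x : ℕ => ∃ N : ℕ, N < X ∧ G.eval (x : ℤ) = N ∧ ¬ Formula (1 / 2) δ0 c D X χ y N) := by
    intro x hx
    rw [mem_filter] at hx ⊢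
    obtain ⟨hxP, N, hNX, hXN, hGN, hlt⟩ := hx
    refine ⟨hxP, N, hNX, hGN, fun hg => ?_⟩
    apply absurd hlt
    push Not
    obtain ⟨L, hL⟩ : ∃ L : ℝ, L = (X : ℝ) ^ (2 - δ) := ⟨_, rfl⟩
    rw [← hL]
    obtain ⟨hT1, -, S, -, hcS, hmain⟩ := hg
    have hXδ := hX₃ X (by omega)
    rw [pow_zero, mul_one] at hXδ
    have h1δ : 1 ≤ (X : ℝ) ^ (2 - 2 * δ) := Real.one_le_rpow hX1r (by linarith)
    have e2 : L = (X : ℝ) ^ δ * (X : ℝ) ^ (2 - 2 * δ) := by
      rw [hL, ← Real.rpow_add hX0]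
      congr 1
      ring
    have h2δ : 6 * (X : ℝ) ^ (2 - 2 * δ) ≤ L := by
      rw [e2]
      exact mul_le_mul_of_nonneg_right hXδ (by linarith)
    have hLX : 6 * L ≤ (X : ℝ) ^ 2 := by
      have e3 : (X : ℝ) ^ 2 = (X : ℝ) ^ δ * L := by
        rw [hL, ← Real.rpow_add hX0, ← Real.rpow_natCast]
        congr 1
        push_cast
        ring
      rw [e3]
      exact mul_le_mul_of_nonneg_right hXδ (by linarith)
    have hfl : (⌊L⌋ : ℝ) ≤ L := Int.floor_le L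
    have hfl2 : L < ⌊L⌋ + 1 := Int.lt_floor_add_one L
    have hLN : ⌊L⌋ ≤ ((N : ℤ) + 1) ^ 2 := by
      have h1 : (X : ℝ) ≤ 2 * N := by exact_mod_cast hXN
      have h2 : (X : ℝ) ^ 2 ≤ (2 * N) ^ 2 := pow_le_pow_left₀ hX0.le h1 2
      have h3 : (⌊L⌋ : ℝ) ≤ ((N : ℝ) + 1) ^ 2 := by nlinarith
      exact_mod_cast h3
    have hlow := (hmain 2 ⌊L⌋ (by
      have : (0 : ℤ) ≤ (N : ℤ) ^ 2 := by positivity
      linarith) hLN (by
      push_cast
      refine (hmon (2 - δ0) (2 - 2 * δ) (by linarith)).trans ?_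
      linarith)).1
    obtain ⟨T, hT⟩ : ∃ T : ℝ, T = twist χ y N := ⟨_, rfl⟩
    rw [← hT] at hT1 hlow
    have hW : L / 2 ≤ ((⌊L⌋ - 2 : ℤ) : ℝ) := by push_cast; linarith
    have hy2 : (X : ℝ) ^ (-(κ / 2)) ≤ (1 - y) ^ 2 := by
      have e1 : ((X : ℝ) ^ (-(κ / 4))) ^ 2 ≤ (1 - y) ^ 2 :=
        pow_le_pow_left₀ (Real.rpow_nonneg hX0.le _) (by linarith) 2
      refine le_trans (le_of_eq ?_) e1
      rw [← Real.rpow_natCast, ← Real.rpow_mul hX0.le]
      congr 1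
      push_cast
      ring
    have hS0 : 0 ≤ S := hc.le.trans hcS
    have hT0 : 0 ≤ T := le_trans (by positivity) hT1
    have hlog2 : 0 < (2 * Real.log X) ^ 2 := by positivity
    have hLW : L / 2 / (2 * Real.log X) ^ 2 ≤ ((⌊L⌋ - 2 : ℤ) : ℝ) / (2 * Real.log X) ^ 2 :=
      div_le_div_of_nonneg_right hW hlog2.le
    have hL0 : 0 < L := by linarith
    have hmainge : (X : ℝ) ^ (-(κ / 2)) * c * (L / 2 / (2 * Real.log X) ^ 2) ≤
        T * S * (((⌊L⌋ - 2 : ℤ) : ℝ) / (2 * Real.log X) ^ 2) := by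
      apply mul_le_mul (mul_le_mul (hy2.trans hT1) hcS hc.le hT0) hLW (by positivity) (mul_nonneg hT0 hS0)
    have h5 := (abs_le.1 hlow).1
    have h6 : (X : ℝ) ^ (2 - δ - κ) ≤ 1 / 2 * ((X : ℝ) ^ (-(κ / 2)) * c * (L / 2 / (2 * Real.log X) ^ 2)) := by
      have e1 := hX₂ X (by omega)
      have e2 : (X : ℝ) ^ (2 - δ - κ) = (X : ℝ) ^ (-(κ / 2)) * ((X : ℝ) ^ (-(κ / 2)) * L) := by
        rw [hL, ← Real.rpow_add hX0, ← Real.rpow_add hX0]
        congr 1
        ring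
      have e3 : (X : ℝ) ^ (-(κ / 2)) ≤ c / 16 / Real.log X ^ 2 := by
        rw [le_div_iff₀ (by positivity), Real.rpow_neg hX0.le, inv_mul_le_iff₀ (Real.rpow_pos_of_pos hX0 _)]
        rw [div_mul_eq_mul_div, div_le_iff₀ hc] at e1
        linarith
      rw [e2]
      calc (X : ℝ) ^ (-(κ / 2)) * ((X : ℝ) ^ (-(κ / 2)) * L) ≤ (X : ℝ) ^ (-(κ / 2)) * (c / 16 / Real.log X ^ 2 * L) := by
            apply mul_le_mul_of_nonneg_left _ (Real.rpow_nonneg hX0.le _)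
            exact mul_le_mul_of_nonneg_right e3 (by linarith)
        _ = _ := by
            field_simp
            ring
    linarith
  exact_mod_cast card_le_card hsub

open Classical in
/-- **Almost equal primes with the sum `2 N² + 2 N + 2`**, with a power saving in the number of the exceptions, for the
`N < X` and for the `N < X` among the values of any polynomial: the asymptotic formula at every scale `X` (with a
factor for a possible exceptional zero), the existence of many `k` with `2 ≤ k < X ^ (2 - δ)` at every scale, and the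
asymptotic formula for the `N < X` without the factor at most scales. -/
theorem result :
    (∀ K : ℕ, ∀ ε : ℝ, 0 < ε → ∃ D : ℕ, 0 < D ∧ ∃ δ : ℝ, 0 < δ ∧ ∃ c : ℝ, 0 < c ∧
      ∀ B : ℕ, ∀ κ : ℝ, 0 < κ → ∃ X₀ : ℕ, ∀ X : ℕ, X₀ ≤ X →
      ∃ r : ℕ, ∃ _ : NeZero r, Real.log X ^ B ≤ r ∧ ∃ χ : DirichletCharacter ℂ r, χ ^ 2 = 1 ∧
      ∃ y : ℝ, 0 ≤ y ∧ y ≤ 1 - (X : ℝ) ^ (-κ) ∧
        (y = 0 ∨ (χ.IsPrimitive ∧ χ ≠ 1 ∧ ∃ β : ℝ, y = ((X : ℝ) ^ 2) ^ (β - 1) ∧ χ.LFunction β = 0)) ∧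
        ∀ (P : ℕ) (G : ℤ[X]), Family K δ X P G →
          (((range P).filter (fun x : ℕ => ∃ N : ℕ, N < X ∧ G.eval (x : ℤ) = N ∧
            ¬ Formula ε δ c D X χ y N)).card : ℝ) ≤ (X : ℝ) ^ (-δ) * P) ∧
    (∀ K : ℕ, ∃ δ : ℝ, 0 < δ ∧ ∀ κ : ℝ, 0 < κ → ∃ X₀ : ℕ, ∀ X : ℕ, X₀ ≤ X →
      ∀ (P : ℕ) (G : ℤ[X]), Family K δ X P G →
        (((range P).filter (fun x : ℕ => ∃ N : ℕ, N < X ∧ X ≤ 2 * N ∧ G.eval (x : ℤ) = N ∧
          (pairs N 2 ⌊(X : ℝ) ^ (2 - δ)⌋ : ℝ) < (X : ℝ) ^ (2 - δ - κ))).card : ℝ) ≤ (X : ℝ) ^ (-δ) * P) ∧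
    (∀ ε : ℝ, 0 < ε → ε < 1 → ∃ δ : ℝ, 0 < δ ∧ MostScales ε (fun X =>
      (((range X).filter (fun N => ¬ Predicted ε δ X N)).card : ℝ) ≤ (X : ℝ) ^ (1 - δ))) := by
  refine ⟨everyScale, existence, fun ε hε hε1 => ?_⟩
  obtain ⟨δ, hδ, hm⟩ := mostScales ε hε hε1
  exact ⟨δ, hδ, scales_mono (fun X h => h.1) hm⟩

end Pool.Agent.Results.MP_e94e4b_nt.AlmostEqualEveryScale
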