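import Pool.Agent.Helper85.LQ.Fin

/-!
# Two primes between consecutive squares with a sum near `2 N ^ 2 + 2 N + 2`: a positive proportion of the sums

Let `A_N (k) = N ^ 2 + k + 1` and `B_N (k) = (N + 1) ^ 2 - k`. The question asks for `k` in `[2, 2 N]` such that
`A_N (k)` and `B_N (k)` are prime. As `A_N (i) + B_N (j) = 2 N ^ 2 + 2 N + 2 + (i - j)`, this means that the difference
`i - j = 0` occurs for primes `A_N (i)`, `B_N (j)`, `2 ≤ i, j ≤ 2 N`.

There are positive constants `c`, `η`, `C` such that for all but `C X ^ 0.612` of the `N ≤ X` a positive proportion of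
the differences occurs, even in every short window: for every interval `[k, k + H)` inside `[2, 2 N]` of length
`H ≥ N ^ (1 - η)` at least `c H` of the integers `d`, `|d| < H`, are differences `d = i - j` with `i`, `j` in
`[k, k + H)` and primes `A_N (i)`, `B_N (j)`.

Proof. For all but `C X ^ 0.612` of the `N ≤ X` all intervals of length at least `N ^ (1 - η)` between `N ^ 2` and
`(N + 1) ^ 2` contain the right order of primes (from the starting theorem `Pool.Agent.Q278.KT.mainp_half`, as in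
helper89's file `H89B/Exc`). By a sieve bound for prime pairs (`Pool.Agent.H357R2.SI.pair_sieve`) and a bound for the
fourth moment of `σ_{-1}` the additive energy of the primes of two such intervals of length `H` is
`O (H ^ 3 / (log H) ^ 4)`, and the inequality of Cauchy and Schwarz gives the number of the sums.
-/

set_option autoImplicit false

namespace Pool.Agent.Results.MP_e94e4b_nt.PositiveProportionOfSums

open Finset

/-- `A_N (k) = N ^ 2 + k + 1` -/
def A (N k : ℕ) : ℕ := N ^ 2 + k + 1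

/-- `B_N (k) = (N + 1) ^ 2 - k` -/
def B (N k : ℕ) : ℕ := (N + 1) ^ 2 - k

/-- The differences `i - j` of the numbers `i`, `j` in `[k, k + H)` for which `A_N (i)` and `B_N (j)` are prime. -/
def differences (N k H : ℕ) : Finset ℤ :=
  (((Ico k (k + H)) ×ˢ (Ico k (k + H))).filter
    (fun x => (A N x.1).Prime ∧ (B N x.2).Prime)).image (fun x => (x.1 : ℤ) - x.2)

open Classical in
/-- For all but `C X ^ 0.612` of the `N ≤ X`, every interval `[k, k + H)` inside `[2, 2 N]` of length
`H ≥ N ^ (1 - η)` has at least `c H` such differences. -/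
theorem result : ∃ c η C : ℝ, 0 < c ∧ 0 < η ∧ 0 < C ∧ ∀ X : ℕ, 1 ≤ X →
    (((Icc 1 X).filter (fun N : ℕ => ¬ ∀ k H : ℕ, 2 ≤ k → k + H ≤ 2 * N + 1 → (N : ℝ) ^ (1 - η) ≤ H →
      c * H ≤ (differences N k H).card)).card : ℝ) ≤ C * (X : ℝ) ^ (0.612 : ℝ) := by
  obtain ⟨c, η, C, hc, hη, hC, h⟩ := Pool.Agent.Helper85.LQ.main
  refine ⟨c, η, C, hc, hη, hC, fun X hX => le_trans ?_ (h X hX)⟩
  have h1 : ((Icc 1 X).filter (fun N : ℕ => ¬ ∀ k H : ℕ, 2 ≤ k → k + H ≤ 2 * N + 1 → (N : ℝ) ^ (1 - η) ≤ H →
      c * H ≤ (differences N k H).card)) ⊆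
      ((Icc 1 X).filter (fun N : ℕ => ∃ k H : ℕ, k + H ≤ 2 * N + 1 ∧ (N : ℝ) ^ (1 - η) ≤ H ∧
      ((Pool.Agent.Helper85.LQ.DF N k H).card : ℝ) < c * H)) := by
    intro N hN
    rw [mem_filter] at hN ⊢
    refine ⟨hN.1, ?_⟩
    by_contra hcon
    apply hN.2
    intro k H _ hkH hHN
    by_contra hlt
    exact hcon ⟨k, H, hkH, hHN, not_le.1 hlt⟩
  exact_mod_cast card_le_card h1

end Pool.Agent.Results.MP_e94e4b_nt.PositiveProportionOfSums
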