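import Pool.Agent.Helper91K1.PQ.Main3

/-!
# Close pairs of primes with a prescribed middle, for quadratic polynomials with a generic linear coefficient

Q1 of MP_e94e4b_nt asks for an integer `0 ≤ j ≤ N` such that `m - j` and `m + j` are both prime, where `m = N ^ 2 + N + 1`
(`j = |k - N|`).  Here `m` is the integer part of `β N ^ 2 + γ N + g(N)`, where `g(N) = O(N)` is arbitrary, e.g. `1`, and `γ` is
any real number outside a null set. For every `β > 0`, e.g. `β = 1`, the upper density of the `N` with such a `j`, even with
`j ≤ log² N`, is at least an absolute constant `c`, and for almost every `β > 0` so is the lower density. The number of these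
`j ≤ H(N)` has the right order for every `H(N)` between `log² N` and `N ^ (1 - κ)`. For `β = 1`, `0 < γ < 2`, bounded `g` and
large `N` the two primes lie between `N ^ 2` and `(N + 1) ^ 2`.

Proof: a block of `X ^ (1 - κ)` consecutive integers of size `X ^ 2` with the right order of primes contains a positive
proportion of integers `m` with this property (Cauchy–Schwarz and an upper bound sieve), and few blocks do not have the right
order of primes (starting library, `Pool.Agent.Q278.KT.mainp_half`). So for most `N` the `γ` for which `N` is good have density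
at least `c` in every interval, and the limsup of these sets has full measure. For the lower density the set of good integers is
thinned so that it has the same number of elements in every block; then the events for different `N` are almost independent in
`(β, γ)` (variance). Joint work of helper91 with helpers 11, 15, 18, 20, 27, 31, 61, 62, 64, 95, 98.
-/

set_option autoImplicit false

open Filter Topology MeasureTheory

namespace Pool.Agent.Results.MP_e94e4b_nt.QuadraticMiddles

/-- The number of the integers `j` with `1 ≤ j ≤ H` such that `m - j` and `m + j` are both prime. -/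
def pairs (m H : ℕ) : ℕ := ((Finset.Icc 1 H).filter (fun j => (m - j).Prime ∧ (m + j).Prime)).card

/-- The number of the positive integers `N ≤ X` such that, with `m = ⌊β N ^ 2 + γ N + g(N)⌋`, both `m - j` and `m + j` are prime
for at least `c H(N) / log² N` of the integers `1 ≤ j ≤ H(N)`. -/
noncomputable def count (c : ℝ) (H : ℕ → ℕ) (g : ℕ → ℝ) (β γ : ℝ) (X : ℕ) : ℕ :=
  {N : ℕ | 1 ≤ N ∧ N ≤ X ∧ c * H N / Real.log N ^ 2 ≤ pairs ⌊β * (N : ℝ) ^ 2 + γ * N + g N⌋₊ (H N)}.ncard

/-- There are `c > 0` and `κ` in `(0, 1)` such that for all `H : ℕ → ℕ` with `log² N ≤ H(N) ≤ N ^ (1 - κ)` for all large `N` and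
all real `g(N)` with `|g(N)| ≤ G N` for all large `N`: for every real `β > 0` and almost all real `γ` the count up to `X` is at
least `c X` for arbitrarily large `X`, and for almost all pairs `(β, γ)` of real numbers with `β > 0` it is at least `c X` for all
large `X`. -/
theorem result : ∃ c κ : ℝ, 0 < c ∧ 0 < κ ∧ κ < 1 ∧ ∀ (H : ℕ → ℕ) (g : ℕ → ℝ) (G : ℝ),
    (∀ᶠ N : ℕ in atTop, Real.log N ^ 2 ≤ H N ∧ (H N : ℝ) ≤ (N : ℝ) ^ (1 - κ)) →
    (∀ᶠ N : ℕ in atTop, |g N| ≤ G * N) →
    (∀ β : ℝ, 0 < β → ∀ᵐ γ : ℝ, ∃ᶠ X : ℕ in atTop, c * X ≤ count c H g β γ X) ∧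
    ∀ᵐ x : ℝ × ℝ, 0 < x.1 → ∀ᶠ X : ℕ in atTop, c * X ≤ count c H g x.1 x.2 X :=
  Pool.Agent.Helper91K1.PQ.main3

end Pool.Agent.Results.MP_e94e4b_nt.QuadraticMiddles
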