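import Pool.Agent.Helper22S.Fin

/-!
# MP_e94e4b_nt: boundedly many primes between consecutive squares with the prescribed sum

The problem asks for `k` with `2 ≤ k ≤ 2 N` such that `N² + k + 1` and `(N + 1)² - k` are both prime.

There are an absolute number `s` and `η, C > 0` such that for all but at most `C X ^ 0.612` of the integers
`1 ≤ N ≤ X` there are `k₁, …, k_s` and `l₁, …, l_s` in `[2, 2 N]`, within `N ^ (1 - η)` of `N`, with
`k₁ + … + k_s = l₁ + … + l_s` and all the numbers `N² + k_i + 1` and `(N + 1)² - l_i` prime. For `s = 1` these are the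
pairs of the problem.

Proof. For all but `C X ^ 0.612` of the `N` all intervals of length at least `N ^ (1 - η)` between `N²` and `(N + 1)²`
contain the right order of primes (counting theorem `Q278.KT.mainp_half` of the starting files). By the upper bound
sieve and the Cauchy-Schwarz inequality a positive proportion of the integers in `[1, 2 H]`, and of those in
`[- 2 H, - 1]`, are of the form `p + q - 2 M`, with `M = N² + N + 1`, `H` about `N ^ (1 - η)` and primes `p, q` within
`H` of `M`. Let `Q` be a prime between `2 H` and `4 H`. By the theorem of Cauchy and Davenport modulo `Q` some `h` of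
the positive ones have the sum `a Q` and some `h` of the negative ones have the sum `- b Q`, where `h` is bounded and
`1 ≤ a, b ≤ h`; then `b (a Q) + a (- b Q) = 0`.
-/

set_option autoImplicit false

namespace Pool.Agent.Results.MP_e94e4b_nt.SameSums

/-- There are natural numbers `k i`, `l i`, `i < s`, in `[2, 2 N]` and within `N ^ (1 - η)` of `N`, such that the sum
of the `k i` is equal to the sum of the `l i` and all the numbers `N ^ 2 + k i + 1` and `(N + 1) ^ 2 - l i` are
prime. -/
def Balanced (s : ℕ) (η : ℝ) (N : ℕ) : Prop :=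
  ∃ k l : Fin s → ℕ, ∑ i, k i = ∑ i, l i ∧
    (∀ i, 2 ≤ k i ∧ k i ≤ 2 * N ∧ |(k i : ℝ) - N| ≤ (N : ℝ) ^ (1 - η) ∧ (N ^ 2 + k i + 1).Prime) ∧
    (∀ i, 2 ≤ l i ∧ l i ≤ 2 * N ∧ |(l i : ℝ) - N| ≤ (N : ℝ) ^ (1 - η) ∧ ((N + 1) ^ 2 - l i).Prime)

open Classical in
/-- There are an absolute number `s` and `η, C > 0` such that all but at most `C X ^ 0.612` of the integers
`1 ≤ N ≤ X` satisfy `Balanced s η N`, for all `X ≥ 1`. -/
theorem result : ∃ (s : ℕ) (η C : ℝ), 1 ≤ s ∧ 0 < η ∧ 0 < C ∧ ∀ X : ℝ, 1 ≤ X →
    (((Finset.Icc 1 ⌊X⌋₊).filter (fun N => ¬ Balanced s η N)).card : ℝ) ≤ C * X ^ (0.612 : ℝ) :=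
  Pool.Agent.Helper22S.main

end Pool.Agent.Results.MP_e94e4b_nt.SameSums
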